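import Mathlib
import Pool.Agent.H24.Dcs

namespace Pool.Agent.Results.MP_cda74c_nt.Full

open Pool.Agent.H24.Dcs in
theorem result (I : Type*) [Infinite I] (a : I → ℤ) (m : I → ℕ) (hm : ∀ i, 2 ≤ m i)
    (hinj : Function.Injective m)
    (hcov : ∀ n : ℤ, 0 < n → ∃! i, n ≡ a i [ZMOD (m i : ℤ)])
    (hsum : HasSum (fun i => (1 : ℝ) / m i) 1) :
    ∀ i, ∃ α β : ℕ, m i = 2 ^ α * 3 ^ β := by
  classical
  intro i0
  by_contra hcon
  have hns : ¬ ∀ q, q.Prime → q ∣ m i0 → q < 5 := by
    intro h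
    apply hcon
    have hm0 : m i0 ≠ 0 := by have := hm i0; omega
    obtain ⟨α, n, h2, e1⟩ := Nat.exists_eq_pow_mul_and_not_dvd hm0 2 (by norm_num)
    have hn0 : n ≠ 0 := by rintro rfl; simp at h2
    obtain ⟨β, k, h3, e2⟩ := Nat.exists_eq_pow_mul_and_not_dvd hn0 3 (by norm_num)
    have hk : k = 1 := by
      by_contra hk
      obtain ⟨q, hq, hd⟩ := Nat.exists_prime_and_dvd hk
      have hdn : q ∣ n := e2 ▸ hd.mul_left _
      have h5 := h q hq (e1 ▸ hdn.mul_left _)
      have := hq.two_le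
      interval_cases q
      · exact h2 hdn
      · exact h3 hd
      · exact absurd hq (by norm_num)
    exact ⟨α, β, by rw [e1, e2, hk, mul_one]⟩
  let r : ℕ → ℕ := fun n => if h : ∃ i, m i = n then (a h.choose % (n : ℤ)).toNat else 0
  have hr : ∀ i, ((r (m i) : ℕ) : ℤ) ≡ a i [ZMOD (m i : ℤ)] := by
    intro i
    have h : ∃ j, m j = m i := ⟨i, rfl⟩
    have e : h.choose = i := hinj h.choose_spec
    have hpos : (m i : ℤ) ≠ 0 := by have := hm i; omega
    simp only [r, dif_pos h, e]
    rw [Int.toNat_of_nonneg (Int.emod_nonneg _ hpos)]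
    exact Int.mod_modEq _ _
  have hdis : ∀ i j x, x ≡ r (m i) [MOD m i] → x ≡ r (m j) [MOD m j] → i = j := by
    intro i j x h1 h2
    have hi := hm i
    have hj := hm j
    have hp : (0 : ℤ) < (x : ℤ) + m i * m j := by positivity
    refine (hcov _ hp).unique ?_ ?_
    · have : (x : ℤ) + m i * m j ≡ x [ZMOD (m i : ℤ)] := by simp [Int.ModEq]
      exact (this.trans (Int.natCast_modEq_iff.2 h1)).trans (hr i)
    · have : (x : ℤ) + m i * m j ≡ x [ZMOD (m j : ℤ)] := by simp [Int.ModEq]
      exact (this.trans (Int.natCast_modEq_iff.2 h2)).trans (hr j)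
  let g : ℕ → I → ℝ := fun Y i => if ∀ q, q.Prime → q ∣ m i → q < Y then (1 : ℝ) / m i else 0
  have hg0 : ∀ Y i, 0 ≤ g Y i := fun Y i => by simp only [g]; split_ifs <;> positivity
  have hg1 : ∀ Y i, g Y i ≤ (1 : ℝ) / m i := fun Y i => by
    simp only [g]; split_ifs
    · exact le_rfl
    · positivity
  have hgs : ∀ Y, HasSum (g Y) (∑' i, g Y i) := fun Y =>
    (Summable.of_nonneg_of_le (hg0 Y) (hg1 Y) hsum.summable).hasSum
  set t : ℕ → ℝ := fun Y => ∑' i, g Y i with ht
  have step : ∀ Y Z : ℕ, Y ≤ Z → (Y : ℝ) * (t Z - t Y) ≤ L Z * (1 - t Y) := by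
    intro Y Z hYZ
    have hs : HasSum (fun i => (Y : ℝ) * (g Z i - g Y i) + L Z * g Y i)
        ((Y : ℝ) * (t Z - t Y) + L Z * t Y) :=
      (((hgs Z).sub (hgs Y)).mul_left _).add ((hgs Y).mul_left _)
    have : (Y : ℝ) * (t Z - t Y) + L Z * t Y ≤ L Z := by
      refine hasSum_le_of_sum_le hs fun S => ?_
      have hk := key Y Z hYZ ((S.filter fun i => ∀ q, q.Prime → q ∣ m i → q < Y).image m)
        ((S.filter fun i => (∀ q, q.Prime → q ∣ m i → q < Z) ∧ ¬ ∀ q, q.Prime → q ∣ m i → q < Y).image m)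
        r ?_ ?_ ?_
      · rw [Finset.sum_image (hinj.injOn), Finset.sum_image (hinj.injOn), Finset.sum_filter,
          Finset.sum_filter] at hk
        rw [Finset.sum_add_distrib, ← Finset.mul_sum, ← Finset.mul_sum]
        have e : ∑ i ∈ S, (g Z i - g Y i) = ∑ i ∈ S, if ((∀ q, q.Prime → q ∣ m i → q < Z) ∧
            ¬ ∀ q, q.Prime → q ∣ m i → q < Y) then (1 : ℝ) / m i else 0 := by
          refine Finset.sum_congr rfl fun i _ => ?_
          simp only [g]
          by_cases h1 : ∀ q, q.Prime → q ∣ m i → q < Y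
          · have h2 : ∀ q, q.Prime → q ∣ m i → q < Z := fun q hq hd => lt_of_lt_of_le (h1 q hq hd) hYZ
            rw [if_pos h1, if_pos h2, if_neg (fun h => h.2 h1), sub_self]
          · by_cases h2 : ∀ q, q.Prime → q ∣ m i → q < Z
            · rw [if_neg h1, if_pos h2, if_pos ⟨h2, h1⟩, sub_zero]
            · rw [if_neg h1, if_neg h2, if_neg (fun h => h2 h.1), sub_zero]
        rw [e]
        simp only [g]
        linarith
      · intro n hn
        obtain ⟨i, hi, rfl⟩ := Finset.mem_image.1 hn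
        exact ⟨by have := hm i; omega, (Finset.mem_filter.1 hi).2⟩
      · intro n hn
        obtain ⟨i, hi, rfl⟩ := Finset.mem_image.1 hn
        exact ⟨by have := hm i; omega, (Finset.mem_filter.1 hi).2⟩
      · intro n hn n' hn' x h1 h2
        rw [← Finset.image_union] at hn hn'
        obtain ⟨i, _, rfl⟩ := Finset.mem_image.1 hn
        obtain ⟨j, _, rfl⟩ := Finset.mem_image.1 hn'
        rw [hdis i j x h1 h2]
    linarith
  have h5 : 0 < 1 - t 5 := by
    have := le_hasSum (hsum.sub (hgs 5)) i0 fun j _ => sub_nonneg.2 (hg1 5 j)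
    simp only [g, if_neg hns, sub_zero] at this
    have hi := hm i0
    exact lt_of_lt_of_le (by positivity) this
  have hpos : ∀ Y, 5 ≤ Y → 0 < 1 - t Y := by
    intro Y hY
    induction Y, hY using Nat.le_induction with
    | base => exact h5
    | succ n hn ih =>
      have h1 := step n (n + 1) (by omega)
      have h2 := L_lin n hn
      have h3 : (5 : ℝ) ≤ n := by exact_mod_cast hn
      have h4 : (n : ℝ) * (t (n + 1) - t n) ≤ n * (3 / 4 * (1 - t n)) := by nlinarith
      have := le_of_mul_le_mul_left h4 (by linarith)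
      linarith
  have hd0 := hpos (4 ^ 4 + 1) (by norm_num)
  set δ := 1 - t (4 ^ 4 + 1) with hδ
  have hbig : ∀ j, 4 ≤ j → δ * (1 / 2 + 8 / 2 ^ j) ≤ 1 - t (4 ^ j + 1) := by
    intro j hj
    induction j, hj using Nat.le_induction with
    | base => norm_num [hδ]
    | succ j hj ih =>
      have h1 := step (4 ^ j + 1) (4 ^ (j + 1) + 1) (by
        have := Nat.pow_le_pow_right (show 0 < 4 by norm_num) (Nat.le_succ j); omega)
      have h2 := L_pow j
      have hp := hpos (4 ^ j + 1) (by
        have := Nat.pow_le_pow_right (show 0 < 4 by norm_num) hj; omega)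
      have e : (4 : ℝ) ^ j = (2 ^ j) ^ 2 := by rw [← pow_mul, mul_comm, pow_mul]; norm_num
      have hx : (16 : ℝ) ≤ 2 ^ j := by
        have := pow_le_pow_right₀ (show (1 : ℝ) ≤ 2 by norm_num) hj
        norm_num at this; exact this
      push_cast at h1
      rw [e] at h1
      rw [pow_succ (2 : ℝ) j]
      set x : ℝ := 2 ^ j
      set d := 1 - t (4 ^ j + 1)
      set D := t (4 ^ (j + 1) + 1) - t (4 ^ j + 1) with hD
      have hx0 : 0 < x := by linarith
      have h3 : D ≤ 4 / x * d := by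
        have : (x ^ 2 + 1) * D ≤ (x ^ 2 + 1) * (4 / x * d) := by
          have e2 : (x ^ 2 + 1) * (4 / x * d) = 4 * x * d + 4 / x * d := by field_simp
          have : 0 ≤ 4 / x * d := by positivity
          nlinarith
        exact le_of_mul_le_mul_left this (by positivity)
      have h4 : 4 / x ≤ 1 / 4 := by rw [div_le_div_iff₀ hx0 (by norm_num)]; linarith
      have e3 : 8 / x = 2 * (4 / x) := by ring
      have e4 : 8 / (x * 2) = 4 / x := by field_simp; norm_num
      rw [e3] at ih
      rw [e4]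
      have h6 : 0 ≤ 4 / x := by positivity
      set y := 4 / x
      have h7 : δ * (1 / 2 + 2 * y) * (1 - y) ≤ d * (1 - y) := mul_le_mul_of_nonneg_right ih (by linarith)
      have h8 : δ * (1 / 2 + y) ≤ δ * ((1 / 2 + 2 * y) * (1 - y)) :=
        mul_le_mul_of_nonneg_left (by nlinarith) hd0.le
      have : 1 - t (4 ^ (j + 1) + 1) = d - D := by simp only [d, hD]; ring
      rw [this]
      nlinarith
  have hev := hsum.eventually (lt_mem_nhds (show 1 - δ / 2 < 1 by linarith))
  obtain ⟨S, hS⟩ := hev.exists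
  have hj := hbig (S.sup m + 4) (by omega)
  have hle : ∑ i ∈ S, (1 : ℝ) / m i ≤ t (4 ^ (S.sup m + 4) + 1) := by
    refine le_trans (le_of_eq (Finset.sum_congr rfl fun i hi => ?_))
      (sum_le_hasSum S (fun i _ => hg0 _ i) (hgs _))
    simp only [g]
    rw [if_pos]
    intro q _ hd
    have h1 : q ≤ m i := Nat.le_of_dvd (by have := hm i; omega) hd
    have h2 : m i ≤ S.sup m := Finset.le_sup hi
    have h3 : S.sup m + 4 < 4 ^ (S.sup m + 4) := Nat.lt_pow_self (by norm_num)
    omega
  have : 0 ≤ δ * (8 / 2 ^ (S.sup m + 4)) := by positivity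
  nlinarith

end Pool.Agent.Results.MP_cda74c_nt.Full
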